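import Pool.Agent.Y558.IQ.Low
import Pool.Agent.Y558.IQ.Up
import Pool.Agent.Y558.IQ.Beth
import Pool.Agent.Y558.IQ.Zfm
import Pool.Agent.Y558.IQ.Lif

set_option autoImplicit false

/-!
# Invalidities of inquisitive first-order logic with large countermodels only

For every signature containing a predicate symbol of arity at least 2 there is an invalidity of
InqBQ whose smallest countermodel has exactly `ℶ_ω` worlds and `ℶ_ω` individuals, and there is an
invalidity all countermodels of which have at least as many worlds and individuals as some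
inaccessible cardinal. The definitions are those of the starting file `UncountableDomain`.

Idea. Substates code sets of individuals (as in the starting file). A formula can therefore say of
a binary relation `E` on the individuals that every subset of (the extension of) an individual is
coded by an individual, and that `E` satisfies a given first-order sentence. These formulas are
refuted exactly if the first-order sentence has a model with this full form of separation. Full
power sets give `ℶ_ω`. Full classes of a set-like individual give second-order set theory.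
-/

namespace Pool.Agent.Y558.Old.LargeCountermodels

open Pool.Agent.Results.MP_130315_lc.UncountableDomain Cardinal Ordinal

universe a b u v

/-- Let `R` be a predicate symbol of arity at least 2 of the signature `σ`.

(1) Some formula of InqBQ is refuted by a model with `ℶ_ω` worlds and `ℶ_ω` individuals, but it is
supported at every state under every assignment in all models with fewer than `ℶ_ω` worlds or
fewer than `ℶ_ω` individuals.

(2) Some formula of InqBQ is refuted by a model, but every model which refutes it has at least `κ`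
worlds and at least `κ` individuals for some inaccessible cardinal `κ`. -/
theorem result (σ : Sig.{a, b}) (R : σ.Pred) (hR : 2 ≤ σ.predAr R) :
    (∃ φ : Fml σ,
      (∃ M : Model.{a, b, 0, 0} σ, #M.W = ℶ_ ω ∧ #M.D = ℶ_ ω ∧
        ∃ (s : Set M.W) (g : ℕ → M.D), ¬ Supports M s g φ) ∧
      ∀ M : Model.{a, b, u, v} σ, #M.W < ℶ_ ω ∨ #M.D < ℶ_ ω →
        ∀ (s : Set M.W) (g : ℕ → M.D), Supports M s g φ) ∧
    ∃ φ : Fml σ,
      (∃ M : Model.{a, b, 1, 1} σ, ∃ (s : Set M.W) (g : ℕ → M.D), ¬ Supports M s g φ) ∧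
      ∀ M : Model.{a, b, u, v} σ, (∃ (s : Set M.W) (g : ℕ → M.D), ¬ Supports M s g φ) →
        (∃ κ : Cardinal.{u}, κ.IsInaccessible ∧ κ ≤ #M.W) ∧
        ∃ κ : Cardinal.{v}, κ.IsInaccessible ∧ κ ≤ #M.D := by
  refine ⟨⟨Y558.IQ.fm R Y558.IQ.psi1, ?_, ?_⟩, ⟨Y558.IQ.fm R Y558.IQ.psi2, ?_, ?_⟩⟩
  · obtain ⟨h1, h2, h3⟩ := Y558.IQ.model1
    have hlow := (Y558.IQ.beth_le _ h1 (fun _ => none) h2 h3).1
    have hcard : #(Option (Σ n, Y558.IQ.T n)) = ℶ_ ω := le_antisymm Y558.IQ.mk_model1 hlow
    obtain ⟨M, hW, hD, hM⟩ := Y558.IQ.up R hR Y558.IQ.psi1 Y558.IQ.E1 (fun _ => none) h1 h2 h3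
      ⟨some ⟨0, (0 : ℕ)⟩, Option.some_ne_none _⟩
    refine ⟨M, ?_, ?_, hM⟩
    · rw [hW, Y558.IQ.compl_inf _ (hcard ▸ aleph0_le_beth _), hcard]
    · rw [hD, hcard]
  · intro M hlt s g
    by_contra hcon
    obtain ⟨A, E, g', h1, h2, h3, h4, h5⟩ := Y558.IQ.low M R _ s g hcon
    obtain ⟨k1, k2⟩ := Y558.IQ.beth_le E h1 g' h2 h3
    rcases hlt with hlt | hlt
    · refine absurd hlt (not_lt.2 ?_)
      have h6 := (Cardinal.lift_le.{u}.2 k2).trans h5
      rw [lift_beth, Ordinal.lift_omega0] at h6
      rw [← Cardinal.lift_le.{v}, lift_beth, Ordinal.lift_omega0]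
      exact h6
    · exact absurd hlt (not_lt.2 (k1.trans h4))
  · obtain ⟨h1, h2, h3⟩ := Y558.IQ.model2.{0}
    obtain ⟨M, -, -, hM⟩ := Y558.IQ.up R hR Y558.IQ.psi2 Y558.IQ.E2.{0} (fun _ => none) h1 h2
      ((Y558.IQ.holds_psi2 _ _).2 h3) ⟨Y558.IQ.X ∅, Option.some_ne_none _⟩
    exact ⟨M, hM⟩
  · rintro M ⟨s, g, hcon⟩
    obtain ⟨A, E, g', h1, h2, h3, h4, h5⟩ := Y558.IQ.low M R _ s g hcon
    obtain ⟨κ, hκ, k1, k2⟩ := Y558.IQ.inac_le E h1 (g' 0) h2 ((Y558.IQ.holds_psi2 _ _).1 h3)
    exact ⟨Y558.IQ.inac_transfer κ hκ _ ((Cardinal.lift_le.{u}.2 k2).trans h5),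
      κ, hκ, k1.trans h4⟩

end Pool.Agent.Y558.Old.LargeCountermodels
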