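import Pool.Agent.Y566.ON.Fin

set_option autoImplicit false

/-!
Ordered abelian groups are faithfully complete, even those whose underlying group is one fixed
countable torsion-free group. The perfect-set Vaught conjecture is equivalent to its restriction to
ordered abelian groups, and to its restriction to the orderings of that one group.
-/

namespace Pool.Agent.Y558.Old.OrderedAbelianGroups

/-- Relational structures on `ℕ` with relations of arities `a 0, a 1, ...`. -/
abbrev Str (a : ℕ → ℕ) : Type := (i : ℕ) → (Fin (a i) → ℕ) → Bool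

/-- Isomorphism of structures. -/
def Iso {a : ℕ → ℕ} (x y : Str a) : Prop :=
  ∃ σ : Equiv.Perm ℕ, ∀ (i : ℕ) (v : Fin (a i) → ℕ), y i (⇑σ ∘ v) = x i v

/-- Structures with universe `ℕ` for the language with a binary relation `<` (a function to
`Bool`) and a binary function `+`. -/
abbrev OStr : Type := (ℕ → ℕ → Bool) × (ℕ → ℕ → ℕ)

/-- Isomorphism of structures with an order and an addition. -/
def OIso (x y : OStr) : Prop := ∃ σ : Equiv.Perm ℕ,
  (∀ m n, y.1 (σ m) (σ n) = x.1 m n) ∧ ∀ m n, y.2 (σ m) (σ n) = σ (x.2 m n)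

/-- The structure `x` is isomorphic to the ordered group `G`. -/
def IsCopy (x : OStr) (G : Type) [AddCommGroup G] [LinearOrder G] : Prop :=
  ∃ e : ℕ ≃ G, (∀ m n, x.1 m n = true ↔ e m < e n) ∧ ∀ m n, e (x.2 m n) = e m + e n

/-- The structure `x` is an ordered abelian group. -/
def OrderedGroup (x : OStr) : Prop :=
  ∃ (G : Type) (_ : AddCommGroup G) (_ : LinearOrder G) (_ : IsOrderedAddMonoid G), IsCopy x G

/-- The structure `x` is an ordered abelian group whose underlying group is (a copy of) `A`. -/
def OrderingOf (A : Type) [AddCommGroup A] (x : OStr) : Prop :=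
  ∃ (_ : LinearOrder A) (_ : IsOrderedAddMonoid A), IsCopy x A

/-- The relation `r` on the group `A` is the strict order of an ordering of the group `A`. -/
def IsOrdering (A : Type) [AddCommGroup A] (r : A → A → Bool) : Prop :=
  ∃ (_ : LinearOrder A) (_ : IsOrderedAddMonoid A), ∀ a b, r a b = true ↔ a < b

/-- The relations `r` and `s` on the group `A` are in one orbit of the automorphism group of `A`. -/
def AutOrbit (A : Type) [AddCommGroup A] (r s : A → A → Bool) : Prop :=
  ∃ θ : A ≃+ A, ∀ a b, s (θ a) (θ b) = r a b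

/-- The perfect-set Vaught conjecture for the members of `K`: every Borel class of members of `K`,
invariant under `E`, has countably many `E`-classes or contains a continuous family, indexed by the
Cantor space, of pairwise inequivalent members. -/
def PerfectVaught {X : Type} [TopologicalSpace X] [MeasurableSpace X] (E : X → X → Prop)
    (K : X → Prop) : Prop :=
  ∀ B : Set X, MeasurableSet B → (∀ x y, E x y → (x ∈ B ↔ y ∈ B)) → (∀ x ∈ B, K x) →
    (∃ f : ℕ → X, ∀ x ∈ B, ∃ n, E (f n) x) ∨
    (∃ g : (ℕ → Bool) → X, Continuous g ∧ (∀ c, g c ∈ B) ∧ ∀ c d, E (g c) (g d) → c = d)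

/-- `K` is faithfully complete: for every invariant Borel class `B` of structures (in any countable
relational language) there are an invariant Borel class `B'` of members of `K` and a Borel map `F`
from `B'` to `B` that induces a bijection of the isomorphism types. -/
def FaithfullyComplete {Y : Type} [MeasurableSpace Y] (E : Y → Y → Prop) (K : Y → Prop) : Prop :=
  ∀ (a : ℕ → ℕ) (B : Set (Str a)), MeasurableSet B → (∀ x y, Iso x y → (x ∈ B ↔ y ∈ B)) →
    ∃ (B' : Set Y) (F : Y → Str a), MeasurableSet B' ∧ (∀ y z, E y z → (y ∈ B' ↔ z ∈ B')) ∧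
      (∀ y ∈ B', K y) ∧ Measurable F ∧ (∀ y ∈ B', F y ∈ B) ∧
      (∀ y ∈ B', ∀ z ∈ B', E y z ↔ Iso (F y) (F z)) ∧ ∀ x ∈ B, ∃ y ∈ B', Iso x (F y)

/-- There is a countable torsion-free abelian group `A` such that the ordered abelian groups with
underlying group `A` are faithfully complete. The perfect-set Vaught conjecture (for all countable
relational languages and all invariant Borel classes) is equivalent to the one for the ordered
abelian groups with underlying group `A`, and to the one for all ordered abelian groups. The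
action of the automorphism group of `A` on the orderings of `A` is also faithfully complete, and
the perfect-set dichotomy for the invariant Borel sets of this one action implies the perfect-set
Vaught conjecture. -/
theorem result : ∃ (A : Type) (_ : AddCommGroup A), Countable A ∧
    (∀ (n : ℕ) (a : A), n ≠ 0 → n • a = 0 → a = 0) ∧
    FaithfullyComplete OIso (OrderingOf A) ∧
    ((∀ a : ℕ → ℕ, PerfectVaught (Iso (a := a)) (fun _ => True)) ↔
      PerfectVaught OIso (OrderingOf A)) ∧
    ((∀ a : ℕ → ℕ, PerfectVaught (Iso (a := a)) (fun _ => True)) ↔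
      PerfectVaught OIso OrderedGroup) ∧
    FaithfullyComplete (AutOrbit A) (IsOrdering A) ∧
    (PerfectVaught (AutOrbit A) (IsOrdering A) →
      ∀ a : ℕ → ℕ, PerfectVaught (Iso (a := a)) (fun _ => True)) := by
  have pv : ∀ {X : Type} [TopologicalSpace X] [MeasurableSpace X] (E : X → X → Prop)
      (K : X → Prop), PerfectVaught E K ↔ W889.VC.VCof True E K := by
    intro X _ _ E K
    constructor
    · intro h B h1 h2 h3
      rcases h B h1 h2 h3 with ⟨f, hf⟩ | ⟨g, h3, h4, h5⟩
      · exact Or.inl ⟨f, hf⟩
      · exact Or.inr ⟨g, fun _ => h3, h4, h5⟩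
    · intro h B h1 h2 h3
      rcases h B h1 h2 h3 with ⟨f, hf⟩ | ⟨g, h3, h4, h5⟩
      · exact Or.inl ⟨f, hf⟩
      · exact Or.inr ⟨g, h3 trivial, h4, h5⟩
  have hfc : FaithfullyComplete OIso (OrderingOf Y566.ON.GA) := Y566.ON.fc_GA
  have hfa : FaithfullyComplete (AutOrbit Y566.ON.GA) (IsOrdering Y566.ON.GA) := by
    haveI : Infinite Y566.ON.GA := Infinite.of_injective (fun n => Y566.ON.e1 (Y566.ON.bs n))
      (fun a b hab => Y566.ON.bs_inj (Y566.ON.e1_inj hab))
    obtain ⟨e₀⟩ : Nonempty (ℕ ≃ Y566.ON.GA) := nonempty_equiv_of_countable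
    exact Y566.ON.fc_aut e₀ Y566.ON.fc_GA
  have h1 : PerfectVaught OIso (OrderingOf Y566.ON.GA) →
      ∀ a : ℕ → ℕ, PerfectVaught (Iso (a := a)) (fun _ => True) := by
    intro h a
    rw [pv] at h ⊢
    haveI : BorelSpace OStr := Prod.borelSpace
    exact Y566.ON.FC.vaught hfc h a
  have h2 : (∀ a : ℕ → ℕ, PerfectVaught (Iso (a := a)) (fun _ => True)) →
      PerfectVaught OIso OrderedGroup := by
    intro h
    rw [pv]
    exact Y566.ON.vc_of_full (fun a => (pv _ _).1 (h a)) _
  have h3 : PerfectVaught OIso OrderedGroup → PerfectVaught OIso (OrderingOf Y566.ON.GA) := by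
    intro h B hB hinv hK
    refine h B hB hinv fun x hx => ?_
    obtain ⟨o, ho, hc⟩ := hK x hx
    exact ⟨Y566.ON.GA, inferInstance, o, ho, hc⟩
  refine ⟨Y566.ON.GA, inferInstance, inferInstance, fun n a hn ha => Y566.ON.tf hn ha, hfc,
    ⟨fun h => h3 (h2 h), h1⟩, ⟨h2, fun h => h1 (h3 h)⟩, hfa, ?_⟩
  intro h a
  rw [pv] at h ⊢
  exact Y566.ON.FC.vaught hfa h a

end Pool.Agent.Y558.Old.OrderedAbelianGroups
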