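import Pool.Agent.Y558.VCD.Hard

set_option autoImplicit false

/-!
Vaught's conjecture (perfect-set form) for first-order theories, and the Vapnik-Chervonenkis
dimension. For structures with one binary relation, the membership relation of a set system or the
adjacency relation of a graph, and with arbitrary unary relations, the conjecture holds if the
dimension is at most one. For dimension at most two, even with a linear shatter function, it is
equivalent to the full conjecture.
-/

namespace Pool.Agent.Y558.Old.VCDimension

open FirstOrder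

/-- Vaught's conjecture, perfect-set form, for the theory `T` in the language `L` (the body of the
frozen statement): the models with universe `ℕ` fall into countably many isomorphism classes, or
some continuous family of models, indexed by the Cantor space, consists of pairwise
non-isomorphic models. -/
def Dichotomy (L : FirstOrder.Language.{0, 0}) (T : L.Theory) : Prop :=
  (∃ g : ℕ → L.Structure ℕ, ∀ S : L.Structure ℕ,
      @FirstOrder.Language.Theory.Model L ℕ S T →
        ∃ n : ℕ, Nonempty (@FirstOrder.Language.Equiv L ℕ ℕ S (g n))) ∨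
  (∃ f : (ℕ → Bool) → L.Structure ℕ,
      (∀ x : ℕ → Bool, @FirstOrder.Language.Theory.Model L ℕ (f x) T) ∧
      (∀ x y : ℕ → Bool,
          Nonempty (@FirstOrder.Language.Equiv L ℕ ℕ (f x) (f y)) → x = y) ∧
      (∀ (n : ℕ) (R : L.Relations n) (a : Fin n → ℕ),
          IsClopen {x : ℕ → Bool | @FirstOrder.Language.Structure.RelMap L ℕ (f x) n R a}) ∧
      (∀ (n : ℕ) (F : L.Functions n) (a : Fin n → ℕ) (b : ℕ),
          IsOpen {x : ℕ → Bool | @FirstOrder.Language.Structure.funMap L ℕ (f x) n F a = b}))

/-- Vaught's conjecture for all first-order theories in all countable languages (the frozen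
statement). -/
def FullConjecture : Prop :=
  ∀ L : FirstOrder.Language.{0, 0}, Countable L.Symbols → ∀ T : L.Theory, Dichotomy L T

/-- The family `F` of sets shatters the finite set `A`: the sets of the family cut all subsets out
of `A`. -/
def Shatters (F : Set (Set ℕ)) (A : Finset ℕ) : Prop :=
  ∀ B : Finset ℕ, B ⊆ A → ∃ X ∈ F, ∀ u ∈ A, (u ∈ X ↔ u ∈ B)

/-- The VC dimension of the family `F` is at most `d`: every shattered set has at most `d`
elements. -/
def DimAtMost (F : Set (Set ℕ)) (d : ℕ) : Prop := ∀ A : Finset ℕ, Shatters F A → A.card ≤ d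

/-- `R` is the membership relation of a system of sets of VC dimension at most `d`: the points are
the elements of `P`, the other elements `w` are (names of) the sets `{u | R u w}`. -/
def SetSystem (d : ℕ) (P : ℕ → Prop) (R : ℕ → ℕ → Prop) : Prop :=
  (∀ u v, R u v → P u ∧ ¬ P v) ∧ DimAtMost {X | ∃ w, ¬ P w ∧ X = {u | R u w}} d

/-- `R` is a simple graph whose system of (open) neighbourhoods has VC dimension at most `d`. -/
def OpenGraph (d : ℕ) (R : ℕ → ℕ → Prop) : Prop :=
  (∀ u v, R u v → R v u) ∧ (∀ u, ¬ R u u) ∧ DimAtMost {X | ∃ w, X = {u | R u w}} d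

/-- `R` is a simple graph whose system of closed neighbourhoods has VC dimension at most `d`. -/
def ClosedGraph (d : ℕ) (R : ℕ → ℕ → Prop) : Prop :=
  (∀ u v, R u v → R v u) ∧ (∀ u, ¬ R u u) ∧ DimAtMost {X | ∃ w, X = {u | u = w ∨ R u w}} d

/-- The relation of the binary relation symbol `R` in the structure `S`. -/
def Rel {L : FirstOrder.Language.{0, 0}} (S : L.Structure ℕ) (R : L.Relations 2) (u v : ℕ) : Prop :=
  @FirstOrder.Language.Structure.RelMap L ℕ S 2 R ![u, v]

/-- The set of the unary relation symbol `P` in the structure `S`. -/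
def Pred {L : FirstOrder.Language.{0, 0}} (S : L.Structure ℕ) (P : L.Relations 1) (u : ℕ) : Prop :=
  @FirstOrder.Language.Structure.RelMap L ℕ S 1 P fun _ => u

/-- In the structure `S` the binary relation `R` is a set system, or the dual of a set system, with
respect to some unary relation, or a graph, and the VC dimension (of the sets, or of the open or
closed neighbourhoods) is at most `d`. -/
def Small {L : FirstOrder.Language.{0, 0}} (d : ℕ) (R : L.Relations 2) (S : L.Structure ℕ) : Prop :=
  (∃ P : L.Relations 1, SetSystem d (Pred S P) (Rel S R) ∨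
    SetSystem d (fun u => ¬ Pred S P u) (fun u v => Rel S R v u)) ∨
  OpenGraph d (Rel S R) ∨ ClosedGraph d (Rel S R)

/-- Vaught's conjecture holds for every first-order theory in a countable relational language with
one binary symbol `R` and otherwise only relation symbols of arity at most one, if in each model of
the theory on `ℕ` the relation `R` is a set system, the dual of a set system or a graph of VC
dimension at most one. For dimension two it is as hard as possible: the full conjecture is
equivalent to the conjecture for the complete theories of graphs with VC dimension at most two,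
even if moreover the neighbourhoods cut at most `3 |X| + 1` different subsets out of each finite
set `X`. -/
theorem result :
    (∀ L : FirstOrder.Language.{0, 0}, Countable L.Symbols → L.IsRelational →
      ∀ R : L.Relations 2,
        (∀ (n : ℕ) (Q : L.Relations n), n ≤ 1 ∨ (⟨n, Q⟩ : Σ n, L.Relations n) = ⟨2, R⟩) →
        ∀ T : L.Theory, (∀ S : L.Structure ℕ,
          @FirstOrder.Language.Theory.Model L ℕ S T → Small 1 R S) → Dichotomy L T) ∧
    (FullConjecture ↔ ∀ T : FirstOrder.Language.graph.Theory, T.IsComplete →
      (∀ S : FirstOrder.Language.graph.Structure ℕ,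
        @FirstOrder.Language.Theory.Model FirstOrder.Language.graph ℕ S T →
          OpenGraph 2 (Rel S FirstOrder.Language.adj) ∧
          ∀ X : Finset ℕ, Set.ncard {Y : Set ℕ | ∃ w, Y = {u | u ∈ X ∧
            Rel S FirstOrder.Language.adj u w}} ≤ 3 * X.card + 1) →
      Dichotomy FirstOrder.Language.graph T) := by
  refine ⟨fun L hL hR R hu T hT => ?_, fun h T _ _ => ?_, fun h L hL T => ?_⟩
  · have h1 : Countable (Σ n, L.Relations n) :=
      (Sum.inr_injective (α := Σ n, L.Functions n) (β := Σ n, L.Relations n)).countable
    refine (Pool.Agent.W889.FO.vaughtF_iff L T).2 (Pool.Agent.Y558.VCD.fo_small R hu T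
      fun S hS => ?_)
    rcases hT S hS with ⟨P, h2 | h2⟩ | h2 | h2
    · exact Or.inl ⟨P, Or.inl (Pool.Agent.Y558.VCD.two_of h2.1 h2.2)⟩
    · exact Or.inl ⟨P, Or.inr (Pool.Agent.Y558.VCD.two_of h2.1 h2.2)⟩
    · exact Or.inr (Or.inl (Pool.Agent.Y558.VCD.gr_of h2.1 h2.2.1 h2.2.2))
    · exact Or.inr (Or.inr ⟨h2.2.1, Pool.Agent.Y558.VCD.co_of h2.1 h2.2.2⟩)
  · have h1 : Countable FirstOrder.Language.graph.Symbols := by
      have h2 : Countable (Σ n, FirstOrder.Language.graph.Relations n) :=
        Pool.Agent.W889.FO.StD.countable_LG
      have h3 : IsEmpty (Σ n, FirstOrder.Language.graph.Functions n) :=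
        ⟨fun p => Empty.elim p.2⟩
      exact inferInstanceAs (Countable ((Σ n, FirstOrder.Language.graph.Functions n) ⊕
        Σ n, FirstOrder.Language.graph.Relations n))
    exact h _ h1 T
  · refine Pool.Agent.W889.FO.St0.reduce L (fun T1 => ?_) T
    have := Pool.Agent.W889.FO.St0.countable_LF (L := L)
    refine Pool.Agent.W889.FO.to_subd 1 (fun T2 hT2 => ?_) _ T1
    have := Pool.Agent.W889.FO.StD.countable_LG
    refine Pool.Agent.W889.FO.of_complete T2 fun S hS => ?_
    refine (Pool.Agent.W889.FO.vaughtF_iff _ _).1 (h _ ?_ fun S' hS' => ?_)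
    · exact @FirstOrder.Language.completeTheory.isComplete FirstOrder.Language.graph ℕ S _
    · have hW := hT2 S' (Pool.Agent.W889.FO.ax_iff.2 fun φ hφ =>
        Pool.Agent.W889.FO.ax_iff.1 hS' φ (Pool.Agent.W889.FO.ax_iff.1 hS φ hφ))
      exact ⟨⟨hW.symm, hW.irrefl, Pool.Agent.Y558.VCD.vc_subd hW⟩,
        Pool.Agent.Y558.VCD.tr_subd' hW⟩

end Pool.Agent.Y558.Old.VCDimension
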